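import Pool.Agent.Helper19.Slab.DriftGeo

set_option autoImplicit false

/-!
Slab, packet DRIFT: the mean displacement of the core cylinders is large.
-/

open Set MeasureTheory

namespace Pool.Agent.Helper19.Slab

open Pool.Agent.Helper75.Slab

/-- a bounded function continuous on the slab is integrable on measurable subsets of finite volume -/
lemma integrableOn_of_bdd {f : E → ℝ} {A : Set E} {C : ℝ} (hf : ContinuousOn f M) (hA : MeasurableSet A)
    (hAM : A ⊆ M) (hv : volume A < ⊤) (hC : ∀ x ∈ A, |f x| ≤ C) : IntegrableOn f A := by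
  refine IntegrableOn.of_bound hv ((hf.mono hAM).aestronglyMeasurable hA) C ?_
  rw [ae_restrict_iff' hA]
  exact Filter.Eventually.of_forall fun x hx => by simpa using hC x hx

lemma en_nonneg (U : ℝ) (v : E → E) (x : E) : 0 ≤ en U v x := by
  unfold en
  positivity

lemma en_cont {v : E → E} (U : ℝ) (hv : ∀ i, ContinuousOn (fun x => v x i) M) :
    ContinuousOn (en U v) M := by
  unfold en
  exact ((((hv 0).sub continuousOn_const).pow 2).add ((hv 1).pow 2)).add ((hv 2).pow 2)

lemma en_low (v : E → E) (x : E) : 16 - en 20 v x / 16 ≤ v x 0 := by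
  unfold en
  nlinarith [sq_nonneg (v x 0 - 20 + 8), sq_nonneg (v x 1), sq_nonneg (v x 2)]

/-- energy in the box of half-size `5 n` -/
lemma ener_bound {n : ℕ} {u0 us : E → E} {c : ℝ}
    (h0 : ∀ x ∈ M, en 20 u0 x ≤ 1) (hc0 : ContinuousOn (en 20 u0) M)
    (hE : ∫ x in Bx c (5 * n), en 20 us x ≤
      (∫ x in Bx c (2 * (5 * n)), en 20 u0 x) + 1 * (5 * (n : ℝ)) ^ 2) :
    ∫ x in Bx c (5 * n), en 20 us x ≤ 425 * (n : ℝ) ^ 2 := by
  refine hE.trans ?_
  have h1 : ∫ x in Bx c (2 * (5 * n)), en 20 u0 x ≤ ∫ x in Bx c (2 * (5 * n)), (1 : ℝ) := by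
    refine setIntegral_mono_on ((hc0.mono (Bx_sub _ _)).integrableOn_compact (Bx_compact _ _))
      (integrableOn_const (Bx_compact _ _).measure_lt_top.ne) (Bx_compact _ _).measurableSet ?_
    intro x hx
    exact h0 x (Bx_sub _ _ hx)
  rw [setIntegral_const, Bx_real _ _ (by positivity)] at h1
  simp only [smul_eq_mul, mul_one] at h1
  linarith

theorem drift (hENER : G_ENER) : G_DRIFT := by
  intro t u φ K ht hK hu hen huK hφ0 hφd hφc hφ
  obtain ⟨R₀, hR₀⟩ := hENER t u ht hu 20 1 one_pos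
  obtain ⟨n₁, hn₁⟩ := exists_nat_ge (max R₀ (1 + K * t))
  refine ⟨n₁ + 1, ?_⟩
  intro n hn
  have hn1 : (n₁ : ℝ) + 1 ≤ n := by exact_mod_cast hn
  have hnR : R₀ ≤ 5 * n := by
    have := (le_max_left R₀ (1 + K * t)).trans hn₁
    have h0 : (0 : ℝ) ≤ n₁ := Nat.cast_nonneg _
    linarith
  have hnK : 1 + K * t ≤ n := by
    have := (le_max_right R₀ (1 + K * t)).trans hn₁
    linarith
  have hn0 : (0 : ℝ) < n := by
    have := mul_nonneg hK ht
    linarith
  -- continuity
  have huc := hu.2.2.1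
  have husc : ∀ s ∈ Icc 0 t, ∀ i, ContinuousOn (fun x => u s x i) M := by
    intro s hs i
    exact (huc i).comp (f := fun x : E => ((s, x) : ℝ × E)) (by fun_prop) fun x hx => ⟨hs, hx⟩
  have hφsc : ∀ s ∈ Icc 0 t, ContinuousOn (φ s) M := by
    intro s hs
    exact hφc.comp (f := fun x : E => ((s, x) : ℝ × E)) (by fun_prop) fun x hx => ⟨hs, hx⟩
  have h0t : (0 : ℝ) ∈ Icc 0 t := ⟨le_rfl, ht⟩
  have htt : t ∈ Icc 0 t := ⟨ht, le_rfl⟩
  have hSM : S n ⊆ M := (S_sub n).trans O_sub_M
  -- the velocity along the trajectories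
  set g : ℝ → E → ℝ := fun s X => u s (φ s X) 0 with hg
  have hgc : ContinuousOn (fun z : ℝ × E => g z.1 z.2) (Icc 0 t ×ˢ M) := by
    refine (huc 0).comp (f := fun z : ℝ × E => ((z.1, φ z.1 z.2) : ℝ × E)) ?_ ?_
    · exact continuousOn_fst.prodMk hφc
    · rintro z ⟨hz1, hz2⟩
      exact ⟨hz1, (hφ z.1 hz1).2.1 z.2 hz2⟩
  have hgb : ∀ s ∈ Icc 0 t, ∀ X ∈ M, |g s X| ≤ K := by
    intro s hs X hX
    exact (norm_le_pi_norm (u s (φ s X)) 0).trans (huK s hs _ ((hφ s hs).2.1 X hX))
  -- lower bound for the mean velocity at time s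
  have hmean : ∀ s ∈ Icc 0 t, 12 * (Jn n).card * qv ≤ ∫ X in S n, g s X := by
    intro s hs
    have hencs : ContinuousOn (en 20 (u s)) M := en_cont _ (husc s hs)
    have henc : ContinuousOn (fun X => en 20 (u s) (φ s X)) M :=
      hencs.comp (hφsc s hs) fun X hX => (hφ s hs).2.1 X hX
    have henb : ∀ x ∈ M, |en 20 (u s) x| ≤ (K + 20) ^ 2 + K ^ 2 + K ^ 2 := by
      intro x hx
      rw [abs_of_nonneg (en_nonneg _ _ _)]
      have h1 : ∀ i, |u s x i| ≤ K := fun i => (norm_le_pi_norm (u s x) i).trans (huK s hs x hx)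
      unfold en
      have h2 := abs_le.mp (h1 0)
      have h3 := abs_le.mp (h1 1)
      have h4 := abs_le.mp (h1 2)
      nlinarith [h2.1, h2.2, h3.1, h3.2, h4.1, h4.2]
    have hi1 : IntegrableOn (fun X => en 20 (u s) (φ s X)) (S n) :=
      integrableOn_of_bdd henc (S_meas n) hSM (S_vol n)
        (fun X hX => henb _ ((hφ s hs).2.1 X (hSM hX)))
    have hgsc : ContinuousOn (fun X => g s X) M :=
      (husc s hs 0).comp (hφsc s hs) fun X hX => (hφ s hs).2.1 X hX
    have hi2 : IntegrableOn (fun X => g s X) (S n) :=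
      integrableOn_of_bdd hgsc (S_meas n) hSM (S_vol n) (fun X hX => hgb s hs X (hSM hX))
    have hi3 : IntegrableOn (fun _ : E => (16 : ℝ)) (S n) := integrableOn_const (S_vol n).ne
    have h1 : ∫ X in S n, (16 - en 20 (u s) (φ s X) / 16) ≤ ∫ X in S n, g s X := by
      refine setIntegral_mono_on (hi3.sub (hi1.div_const 16)) hi2 (S_meas n) ?_
      intro X _
      exact en_low (u s) (φ s X)
    rw [integral_sub hi3 (hi1.div_const 16), integral_div, setIntegral_const, S_real] at h1
    simp only [smul_eq_mul] at h1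
    -- energy of the image
    obtain ⟨-, -, hdisp, himg⟩ := hφ s hs
    obtain ⟨hm, hint⟩ := himg (S n) (S_sub n) (S_meas n)
    rw [hint (fun x => en 20 (u s) x)] at h1
    have hsubB : φ s '' S n ⊆ Bx (4 * 4 ^ n) (5 * n) := by
      rintro _ ⟨X, hX, rfl⟩
      have h2 := hdisp X (hSM hX)
      have h3 : K * s ≤ K * t := mul_le_mul_of_nonneg_left hs.2 hK
      have h4 := S_bd hX
      have h5 : |φ s X 0 - X 0| ≤ K * s := (norm_le_pi_norm (φ s X - X) 0).trans h2
      have h6 : |φ s X 1 - X 1| ≤ K * s := (norm_le_pi_norm (φ s X - X) 1).trans h2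
      refine ⟨(hφ s hs).2.1 X (hSM hX), ?_, ?_⟩
      · have h7 := abs_le.mp h5
        have h8 := abs_le.mp h4.1
        rw [abs_le]
        constructor <;> linarith [h7.1, h7.2, h8.1, h8.2]
      · have h7 := abs_le.mp h6
        have h8 := abs_le.mp h4.2
        rw [abs_le]
        constructor <;> linarith [h7.1, h7.2, h8.1, h8.2]
    have h2 : ∫ x in φ s '' S n, en 20 (u s) x ≤ ∫ x in Bx (4 * 4 ^ n) (5 * n), en 20 (u s) x := by
      refine setIntegral_mono_set ((hencs.mono (Bx_sub _ _)).integrableOn_compact (Bx_compact _ _))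
        (Filter.Eventually.of_forall fun x => en_nonneg _ _ _) (Filter.Eventually.of_forall hsubB)
    have h3 := ener_bound (n := n) hen (en_cont 20 (husc 0 h0t)) (hR₀ (5 * n) hnR (4 * 4 ^ n) s hs)
    have h4 : (4 : ℝ) * n ^ 2 ≤ (Jn n).card := by
      rw [card_Jn]
      push_cast
      nlinarith
    have h5 := qv_pos'
    have h6 : (0 : ℝ) ≤ (n : ℝ) ^ 2 := by positivity
    have h7 : (4 : ℝ) * n ^ 2 * (179 / 100) ≤ (Jn n).card * qv := by
      apply mul_le_mul h4 h5 (by norm_num) (by positivity)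
    nlinarith
  -- Fubini
  have hint : IntegrableOn (fun z : ℝ × E => g z.1 z.2) (Icc 0 t ×ˢ S n) := by
    have hv : (volume : Measure (ℝ × E)) (Icc 0 t ×ˢ S n) < ⊤ := by
      rw [Measure.volume_eq_prod, Measure.prod_prod]
      exact ENNReal.mul_lt_top isCompact_Icc.measure_lt_top (S_vol n)
    have hms : MeasurableSet (Icc 0 t ×ˢ S n) := measurableSet_Icc.prod (S_meas n)
    refine IntegrableOn.of_bound hv
      ((hgc.mono (prod_mono_right hSM)).aestronglyMeasurable hms) K ?_
    rw [ae_restrict_iff' hms]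
    refine Filter.Eventually.of_forall fun z hz => ?_
    simpa using hgb z.1 hz.1 z.2 (hSM hz.2)
  have hint' : Integrable (fun z : ℝ × E => g z.1 z.2)
      ((volume.restrict (Icc 0 t)).prod (volume.restrict (S n))) := by
    rw [Measure.prod_restrict]
    exact hint
  have hswap := integral_integral_swap (f := fun s X => g s X) hint'
  -- the displacement is the integral of the velocity
  have hftc : ∀ X ∈ M, φ t X 0 - X 0 = ∫ s in Icc 0 t, g s X := by
    intro X hX
    have hgX : ContinuousOn (fun s => g s X) (Icc 0 t) :=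
      hgc.comp (f := fun s : ℝ => ((s, X) : ℝ × E)) (by fun_prop) fun s hs => ⟨hs, hX⟩
    have hφX : ContinuousOn (fun s => φ s X 0) (Icc 0 t) := by
      have h1 : ContinuousOn (fun s => φ s X) (Icc 0 t) :=
        hφc.comp (f := fun s : ℝ => ((s, X) : ℝ × E)) (by fun_prop) fun s hs => ⟨hs, hX⟩
      exact (continuous_apply 0).comp_continuousOn h1
    have h1 := intervalIntegral.integral_eq_sub_of_hasDeriv_right_of_le (f := fun s => φ s X 0)
      (f' := fun s => g s X) ht hφX (by
        intro s hs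
        have h2 := (hasDerivWithinAt_pi.mp (hφd X hX s (Ioo_subset_Icc_self hs))) 0
        exact (h2.hasDerivAt (Icc_mem_nhds hs.1 hs.2)).hasDerivWithinAt)
      (by
        rw [intervalIntegrable_iff_integrableOn_Icc_of_le ht]
        exact hgX.integrableOn_compact isCompact_Icc)
    rw [intervalIntegral.integral_of_le ht, ← integral_Icc_eq_integral_Ioc] at h1
    rw [h1, hφ0 X hX]
  have hdispc : ContinuousOn (fun X => φ t X 0 - X 0) M :=
    ((continuous_apply 0).comp_continuousOn (hφsc t htt)).sub (continuous_apply 0).continuousOn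
  have hdispb : ∀ X ∈ M, |φ t X 0 - X 0| ≤ K * t := fun X hX =>
    (norm_le_pi_norm (φ t X - X) 0).trans ((hφ t htt).2.2.1 X hX)
  rw [← S_int n (fun X => φ t X 0 - X 0) (fun j _ =>
    integrableOn_of_bdd hdispc (core_meas j) ((core_sub j).trans O_sub_M) (core_fin j)
      (fun X hX => hdispb X (((core_sub j).trans O_sub_M) hX)))]
  rw [setIntegral_congr_fun (S_meas n) (fun X hX => hftc X (hSM hX)), ← hswap]
  have hfin : ∫ s in Icc 0 t, (12 * ((Jn n).card : ℝ) * qv) ≤
      ∫ s in Icc 0 t, ∫ X in S n, g s X := by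
    refine setIntegral_mono_on (integrableOn_const isCompact_Icc.measure_lt_top.ne) ?_
      measurableSet_Icc hmean
    exact hint'.integral_prod_left
  rw [setIntegral_const] at hfin
  simp only [Real.volume_real_Icc_of_le ht, sub_zero, smul_eq_mul] at hfin
  refine le_trans (le_of_eq ?_) hfin
  ring

theorem thm : G_ENER → G_DRIFT := drift

end Pool.Agent.Helper19.Slab
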