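import Pool.Agent.Helper75.Slab.Goals

set_option autoImplicit false

/-!
Slab, packet DRIFT, part 1: geometry of the cores.
-/

open Set MeasureTheory

namespace Pool.Agent.Helper19.Slab

open Pool.Agent.Helper75.Slab

lemma continuous_dist2 (j : ℤ × ℤ) : Continuous (dist2 j) := by
  unfold dist2
  fun_prop

lemma isOpen_O : IsOpen O := by
  have h0 : Continuous fun x : E => x 2 := continuous_apply 2
  exact (isOpen_lt continuous_const h0).inter (isOpen_lt h0 continuous_const)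

lemma isOpen_core (j : ℤ × ℤ) : IsOpen (Core j) :=
  isOpen_O.inter (isOpen_lt (continuous_dist2 j) continuous_const)

lemma core_meas (j : ℤ × ℤ) : MeasurableSet (Core j) := (isOpen_core j).measurableSet

lemma core_sub (j : ℤ × ℤ) : Core j ⊆ O := fun _ hx => hx.1

lemma O_sub_M : O ⊆ M := fun _ hx => ⟨hx.1.le, hx.2.le⟩

lemma core_vol (j : ℤ × ℤ) : volume (Core j) = volume (Core (0, 0)) := by
  have h : Core j = (fun x : E => x + ![-(4 * (j.1 : ℝ)), -(4 * (j.2 : ℝ)), 0]) ⁻¹' Core (0, 0) := by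
    ext x
    simp only [Core, O, dist2, mem_ofPred_eq, mem_preimage, Pi.add_apply, Matrix.cons_val_zero,
      Matrix.cons_val_one, Matrix.cons_val_two, Matrix.head_cons, Matrix.tail_cons, add_zero,
      Int.cast_zero, mul_zero, sub_zero, Matrix.cons_val]
    constructor
    · rintro ⟨h1, h2⟩
      exact ⟨h1, by linarith⟩
    · rintro ⟨h1, h2⟩
      exact ⟨h1, by linarith⟩
  rw [h, measure_preimage_add_right]

lemma core_bd {j : ℤ × ℤ} {x : E} (hx : x ∈ Core j) :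
    |x 0 - 4 * j.1| < 1 ∧ |x 1 - 4 * j.2| < 1 := by
  have h := hx.2
  unfold dist2 at h
  constructor <;> rw [abs_lt] <;> constructor <;>
    nlinarith [sq_nonneg (x 0 - 4 * j.1), sq_nonneg (x 1 - 4 * j.2)]

lemma core_fin (j : ℤ × ℤ) : volume (Core j) < ⊤ := by
  rw [core_vol]
  refine lt_of_le_of_lt (measure_mono (t := Icc (fun _ => -1 : E) (fun _ => 1)) ?_)
    isCompact_Icc.measure_lt_top
  intro x hx
  have h1 := core_bd hx
  simp only [Int.cast_zero, mul_zero, sub_zero, abs_lt] at h1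
  have h2 := hx.1
  simp only [O, mem_ofPred_eq] at h2
  constructor
  · intro i
    fin_cases i <;> simp <;> linarith [h1.1.1, h1.2.1, h2.1]
  · intro i
    fin_cases i <;> simp <;> linarith [h1.1.2, h1.2.2, h2.2]

lemma qv_pos' : (179 : ℝ) / 100 ≤ qv := by
  have h1 : (Set.pi Set.univ fun i : Fin 3 => Ioo ((![-(67/100), -(67/100), 0] : E) i)
      ((![67/100, 67/100, 1] : E) i)) ⊆ Core (0, 0) := by
    intro x hx
    simp only [Set.mem_pi, mem_univ, forall_true_left, mem_Ioo] at hx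
    have h0 := hx 0
    have h1 := hx 1
    have h2 := hx 2
    simp at h0 h1 h2
    refine ⟨⟨h2.1, h2.2⟩, ?_⟩
    unfold dist2
    simp only [Int.cast_zero, mul_zero, sub_zero]
    nlinarith [h0.1, h0.2, h1.1, h1.2]
  have h2 := Real.volume_pi_Ioo_toReal (a := (![-(67/100), -(67/100), 0] : E))
    (b := (![67/100, 67/100, 1] : E)) (by
      intro i
      fin_cases i <;> simp <;> norm_num)
  have h3 := ENNReal.toReal_mono (core_fin (0, 0)).ne (measure_mono (μ := volume) h1)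
  rw [h2] at h3
  rw [qv]
  refine le_trans ?_ h3
  simp [Fin.prod_univ_three]
  norm_num

lemma core_real (j : ℤ × ℤ) : volume.real (Core j) = qv := by
  rw [measureReal_def, core_vol, qv]

lemma core_disj {i j : ℤ × ℤ} (hij : i ≠ j) : Disjoint (Core i) (Core j) := by
  rw [Set.disjoint_left]
  intro x hi hj
  have h1 := core_bd hi
  have h2 := core_bd hj
  simp only [abs_lt] at h1 h2
  apply hij
  apply Prod.ext
  · by_contra hne
    rcases lt_or_gt_of_ne hne with h | h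
    · have h3 : (i.1 : ℝ) + 1 ≤ j.1 := by exact_mod_cast h
      linarith [h1.1.1, h1.1.2, h2.1.1, h2.1.2]
    · have h3 : (j.1 : ℝ) + 1 ≤ i.1 := by exact_mod_cast h
      linarith [h1.1.1, h1.1.2, h2.1.1, h2.1.2]
  · by_contra hne
    rcases lt_or_gt_of_ne hne with h | h
    · have h3 : (i.2 : ℝ) + 1 ≤ j.2 := by exact_mod_cast h
      linarith [h1.2.1, h1.2.2, h2.2.1, h2.2.2]
    · have h3 : (j.2 : ℝ) + 1 ≤ i.2 := by exact_mod_cast h
      linarith [h1.2.1, h1.2.2, h2.2.1, h2.2.2]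

lemma card_Jn (n : ℕ) : (Jn n).card = (2 * n + 1) * (2 * n + 1) := by
  rw [Jn, Finset.card_product, Int.card_Icc, Int.card_Icc]
  congr 1 <;> omega

/-- the union of the cores -/
def S (n : ℕ) : Set E := ⋃ j ∈ Jn n, Core j

lemma S_meas (n : ℕ) : MeasurableSet (S n) :=
  Finset.measurableSet_biUnion _ fun j _ => core_meas j

lemma S_sub (n : ℕ) : S n ⊆ O := Set.iUnion₂_subset fun j _ => core_sub j

lemma S_vol (n : ℕ) : volume (S n) < ⊤ :=
  (measure_biUnion_lt_top (Finset.finite_toSet _) fun j _ => core_fin j)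

lemma S_int (n : ℕ) (f : E → ℝ) (hf : ∀ j ∈ Jn n, IntegrableOn f (Core j)) :
    ∫ X in S n, f X = ∑ j ∈ Jn n, ∫ X in Core j, f X :=
  integral_biUnion_finset _ (fun j _ => core_meas j)
    (fun _ _ _ _ hij => core_disj hij) hf

lemma S_real (n : ℕ) : volume.real (S n) = (Jn n).card * qv := by
  have h := S_int n (fun _ => 1) (fun j _ => integrableOn_const (core_fin j).ne)
  simp only [setIntegral_const, smul_eq_mul, mul_one, core_real, Finset.sum_const,
    nsmul_eq_mul] at h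
  exact h

lemma S_bd {n : ℕ} {x : E} (hx : x ∈ S n) :
    |x 0 - 4 * 4 ^ n| ≤ 4 * n + 1 ∧ |x 1| ≤ 4 * n + 1 := by
  simp only [S, mem_iUnion] at hx
  obtain ⟨j, hj, hx⟩ := hx
  have h1 := core_bd hx
  simp only [abs_lt] at h1
  rw [Jn, Finset.mem_product, Finset.mem_Icc, Finset.mem_Icc] at hj
  obtain ⟨⟨a1, a2⟩, a3, a4⟩ := hj
  have b1 : (4 : ℝ) ^ n - n ≤ j.1 := by exact_mod_cast a1
  have b2 : (j.1 : ℝ) ≤ 4 ^ n + n := by exact_mod_cast a2
  have b3 : -(n : ℝ) ≤ j.2 := by exact_mod_cast a3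
  have b4 : (j.2 : ℝ) ≤ n := by exact_mod_cast a4
  simp only [abs_le]
  refine ⟨⟨?_, ?_⟩, ?_, ?_⟩ <;> linarith [h1.1.1, h1.1.2, h1.2.1, h1.2.2]

lemma Bx_eq (c R : ℝ) : Bx c R = Icc (![c - R, -R, 0] : E) ![c + R, R, 1] := by
  ext x
  simp only [Bx, M, mem_ofPred_eq, mem_Icc, Pi.le_def, Fin.forall_fin_succ, abs_le]
  simp
  constructor
  · rintro ⟨⟨h1, h2⟩, ⟨h3, h4⟩, h5, h6⟩
    refine ⟨⟨?_, ?_, ?_⟩, ?_, ?_, ?_⟩ <;> linarith
  · rintro ⟨⟨h1, h2, h3⟩, h4, h5, h6⟩
    refine ⟨⟨?_, ?_⟩, ⟨?_, ?_⟩, ?_, ?_⟩ <;> linarith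

lemma Bx_compact (c R : ℝ) : IsCompact (Bx c R) := by
  rw [Bx_eq]
  exact isCompact_Icc

lemma Bx_real (c R : ℝ) (hR : 0 ≤ R) : volume.real (Bx c R) = 4 * R ^ 2 := by
  rw [Bx_eq, measureReal_def, Real.volume_Icc_pi_toReal]
  · simp [Fin.prod_univ_three]
    ring
  · intro i
    fin_cases i <;> simp <;> linarith

lemma Bx_sub (c R : ℝ) : Bx c R ⊆ M := fun _ hx => hx.1

end Pool.Agent.Helper19.Slab
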